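import Mathlib

/-!
Baer-Suzuki for an arbitrary prime (Alperin-Lyons argument), for a conjugation invariant set.
Known theorem, helper file.
-/

namespace Pool.Agent.H85.AL

open Subgroup Pointwise

variable {G : Type*} [Group G]

/-- In a Sylow subgroup `P`, if `D ∩ P` is not contained in `Q`, there is an element of `D ∩ P`
outside `Q` which normalises (as a set) `D ∩ P ∩ Q`. -/
theorem exists_norm [Finite G] {p : ℕ} [Fact p.Prime] (D : Set G)
    (hD : ∀ g, ∀ x ∈ D, g * x * g⁻¹ ∈ D) (P Q : Subgroup G) (hP : IsPGroup p P)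
    (h : ∃ x ∈ D, x ∈ P ∧ x ∉ Q) :
    ∃ x ∈ D, x ∈ P ∧ x ∉ Q ∧ ∀ t, t ∈ D → t ∈ P → t ∈ Q →
      (x * t * x⁻¹ ∈ Q ∧ x⁻¹ * t * x ∈ Q) := by
  classical
  set S : Set (Subgroup G) := {T | P ⊓ Q ≤ T ∧ T ≤ P ∧ ∀ x ∈ D, x ∈ T → x ∈ Q} with hS
  have hne : S.Nonempty := ⟨P ⊓ Q, le_refl _, inf_le_left, fun x _ hx => (mem_inf.1 hx).2⟩
  obtain ⟨T, hT⟩ := (Set.toFinite S).exists_maximal hne
  obtain ⟨⟨hT1, hT2, hT3⟩, hmax⟩ := hT
  obtain ⟨x0, hx0D, hx0P, hx0Q⟩ := h
  have hx0T : x0 ∉ T := fun hx => hx0Q (hT3 x0 hx0D hx)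
  have hnil : Group.IsNilpotent P := hP.isNilpotent
  have hnc : NormalizerCondition P := Group.normalizerCondition_of_isNilpotent
  have hlt : T.subgroupOf P < ⊤ := by
    rw [lt_top_iff_ne_top]
    intro he
    apply hx0T
    have : (⟨x0, hx0P⟩ : P) ∈ T.subgroupOf P := by rw [he]; exact mem_top _
    exact mem_subgroupOf.1 this
  have hlt2 := hnc _ hlt
  obtain ⟨g, hg1, hg2⟩ := SetLike.exists_of_lt hlt2
  -- the bigger subgroup
  set N : Subgroup G := (normalizer ((T.subgroupOf P : Subgroup P) : Set P)).map P.subtype with hN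
  have hTN : T ≤ N := by
    intro t ht
    have h1 : (⟨t, hT2 ht⟩ : P) ∈ T.subgroupOf P := mem_subgroupOf.2 ht
    exact ⟨⟨t, hT2 ht⟩, hlt2.le h1, rfl⟩
  have hNP : N ≤ P := by
    rintro _ ⟨y, _, rfl⟩
    exact y.2
  have hgN : (g : G) ∈ N := ⟨g, hg1, rfl⟩
  have hgT : (g : G) ∉ T := fun hh => hg2 (mem_subgroupOf.2 hh)
  have hNS : N ∉ S := by
    intro hNS
    exact hgT (hmax hNS hTN hgN)
  have : ∃ x ∈ D, x ∈ N ∧ x ∉ Q := by
    by_contra hcon
    apply hNS
    refine ⟨hT1.trans hTN, hNP, ?_⟩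
    intro x hx hxN
    by_contra hxQ
    exact hcon ⟨x, hx, hxN, hxQ⟩
  obtain ⟨x, hxD, hxN, hxQ⟩ := this
  refine ⟨x, hxD, hNP hxN, hxQ, ?_⟩
  intro t htD htP htQ
  have htT : t ∈ T := hT1 (mem_inf.2 ⟨htP, htQ⟩)
  obtain ⟨y, hy, rfl⟩ := hxN
  have hy1 := mem_normalizer_iff.1 hy (⟨t, htP⟩ : P)
  have hy2 := mem_normalizer_iff.1 (inv_mem hy) (⟨t, htP⟩ : P)
  constructor
  · apply hT3 _ (hD _ _ htD)
    have := hy1.1 (mem_subgroupOf.2 htT)
    exact mem_subgroupOf.1 this
  · have h1 := hD (y : G)⁻¹ _ htD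
    rw [inv_inv] at h1
    apply hT3 _ h1
    have := hy2.1 (mem_subgroupOf.2 htT)
    have h2 := mem_subgroupOf.1 this
    simpa using h2

/-- Baer-Suzuki. -/
theorem baerSuzuki [Finite G] {p : ℕ} [Fact p.Prime] (D : Set G)
    (hD : ∀ g, ∀ x ∈ D, g * x * g⁻¹ ∈ D)
    (h2 : ∀ x ∈ D, ∀ y ∈ D, IsPGroup p (closure ({x, y} : Set G))) :
    IsPGroup p (closure D) := by
  classical
  -- all Sylow subgroups have the same intersection with D
  have key : ∀ P Q : Sylow p G, (P : Set G) ∩ D = (Q : Set G) ∩ D := by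
    by_contra hcon
    push Not at hcon
    obtain ⟨P0, Q0, hPQ0⟩ := hcon
    set S : Set (Sylow p G × Sylow p G) :=
      {c | (c.1 : Set G) ∩ D ≠ (c.2 : Set G) ∩ D} with hS
    obtain ⟨⟨P, Q⟩, hPQ, hmax⟩ := Set.exists_max_image S
      (fun c => Set.ncard ((c.1 : Set G) ∩ (c.2 : Set G) ∩ D)) (Set.toFinite S) ⟨(P0, Q0), hPQ0⟩
    have hcardeq : ∀ A B : Sylow p G, Set.ncard ((A : Set G) ∩ D) = Set.ncard ((B : Set G) ∩ D) := by
      intro A B
      obtain ⟨g, rfl⟩ := MulAction.exists_smul_eq G A B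
      have : ((g • A : Sylow p G) : Set G) ∩ D = (fun x => g * x * g⁻¹) '' ((A : Set G) ∩ D) := by
        ext x
        constructor
        · rintro ⟨hx1, hx2⟩
          refine ⟨g⁻¹ * x * g, ⟨?_, ?_⟩, by group⟩
          · have hx1' : x ∈ (g • A : Sylow p G) := hx1
            have hx3 : x ∈ MulAut.conj g • (A : Subgroup G) := hx1'
            rw [Subgroup.mem_pointwise_smul_iff_inv_smul_mem] at hx3
            have : (MulAut.conj g)⁻¹ • x = g⁻¹ * x * g := by
              rw [← map_inv]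
              simp [MulAut.smul_def, MulAut.conj_apply]
            rw [this] at hx3
            exact hx3
          · have := hD g⁻¹ x hx2
            rwa [inv_inv] at this
        · rintro ⟨y, ⟨hy1, hy2⟩, rfl⟩
          refine ⟨?_, hD g y hy2⟩
          show g * y * g⁻¹ ∈ MulAut.conj g • (A : Subgroup G)
          rw [Subgroup.mem_pointwise_smul_iff_inv_smul_mem]
          have : (MulAut.conj g)⁻¹ • (g * y * g⁻¹) = y := by
            rw [← map_inv]
            simp [MulAut.smul_def, MulAut.conj_apply]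
            group
          rw [this]
          exact hy1
      rw [this, Set.ncard_image_of_injective]
      intro a b hab
      simpa using hab
    have hx : ∃ x ∈ D, x ∈ (P : Subgroup G) ∧ x ∉ (Q : Subgroup G) := by
      by_contra hcon
      push Not at hcon
      apply hPQ
      apply Set.eq_of_subset_of_ncard_le _ (le_of_eq (hcardeq Q P)) (Set.toFinite _)
      rintro x ⟨hx1, hx2⟩
      exact ⟨hcon x hx2 hx1, hx2⟩
    have hy : ∃ x ∈ D, x ∈ (Q : Subgroup G) ∧ x ∉ (P : Subgroup G) := by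
      by_contra hcon
      push Not at hcon
      apply hPQ
      symm
      apply Set.eq_of_subset_of_ncard_le _ (le_of_eq (hcardeq P Q)) (Set.toFinite _)
      rintro x ⟨hx1, hx2⟩
      exact ⟨hcon x hx2 hx1, hx2⟩
    obtain ⟨x, hxD, hxP, hxQ, hxt⟩ := exists_norm D hD (P : Subgroup G) Q P.isPGroup' hx
    obtain ⟨y, hyD, hyQ, hyP, hyt⟩ := exists_norm D hD (Q : Subgroup G) P Q.isPGroup' hy
    -- Θ
    set Θ : Set G := (P : Set G) ∩ (Q : Set G) ∩ D with hΘ
    have hclP : closure Θ ≤ (P : Subgroup G) := by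
      rw [closure_le]
      rintro t ⟨⟨h1, _⟩, _⟩
      exact h1
    have hnormx : x ∈ normalizer ((closure Θ : Subgroup G) : Set G) := by
      have hx1 : ∀ t ∈ Θ, x * t * x⁻¹ ∈ Θ := by
        rintro t ⟨⟨h1, h3⟩, h4⟩
        refine ⟨⟨?_, (hxt t h4 h1 h3).1⟩, hD _ _ h4⟩
        exact mul_mem (mul_mem hxP h1) (inv_mem hxP)
      have hx2 : ∀ t ∈ Θ, x⁻¹ * t * x ∈ Θ := by
        rintro t ⟨⟨h1, h3⟩, h4⟩
        refine ⟨⟨?_, (hxt t h4 h1 h3).2⟩, ?_⟩
        · exact mul_mem (mul_mem (inv_mem hxP) h1) hxP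
        · have := hD x⁻¹ t h4
          rwa [inv_inv] at this
      rw [mem_normalizer_iff]
      intro t
      constructor
      · intro ht
        have : closure Θ ≤ (closure Θ).comap (MulAut.conj x).toMonoidHom := by
          rw [closure_le]
          intro s hs
          exact Subgroup.subset_closure (hx1 s hs)
        exact this ht
      · intro ht
        have : closure Θ ≤ (closure Θ).comap (MulAut.conj x⁻¹).toMonoidHom := by
          rw [closure_le]
          intro s hs
          apply Subgroup.subset_closure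
          have := hx2 s hs
          simpa using this
        have h3 := this ht
        have h4 : (MulAut.conj x⁻¹).toMonoidHom (x * t * x⁻¹) = t := by
          simp [MulAut.conj_apply]
          group
        rw [mem_comap, h4] at h3
        exact h3
    have hnormy : y ∈ normalizer ((closure Θ : Subgroup G) : Set G) := by
      have hx1 : ∀ t ∈ Θ, y * t * y⁻¹ ∈ Θ := by
        rintro t ⟨⟨h1, h3⟩, h4⟩
        refine ⟨⟨(hyt t h4 h3 h1).1, ?_⟩, hD _ _ h4⟩
        exact mul_mem (mul_mem hyQ h3) (inv_mem hyQ)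
      have hx2 : ∀ t ∈ Θ, y⁻¹ * t * y ∈ Θ := by
        rintro t ⟨⟨h1, h3⟩, h4⟩
        refine ⟨⟨(hyt t h4 h3 h1).2, ?_⟩, ?_⟩
        · exact mul_mem (mul_mem (inv_mem hyQ) h3) hyQ
        · have := hD y⁻¹ t h4
          rwa [inv_inv] at this
      rw [mem_normalizer_iff]
      intro t
      constructor
      · intro ht
        have : closure Θ ≤ (closure Θ).comap (MulAut.conj y).toMonoidHom := by
          rw [closure_le]
          intro s hs
          exact Subgroup.subset_closure (hx1 s hs)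
        exact this ht
      · intro ht
        have : closure Θ ≤ (closure Θ).comap (MulAut.conj y⁻¹).toMonoidHom := by
          rw [closure_le]
          intro s hs
          apply Subgroup.subset_closure
          have := hx2 s hs
          simpa using this
        have h3 := this ht
        have h4 : (MulAut.conj y⁻¹).toMonoidHom (y * t * y⁻¹) = t := by
          simp [MulAut.conj_apply]
          group
        rw [mem_comap, h4] at h3
        exact h3
    have hK : IsPGroup p (closure ({x, y} : Set G)) := h2 x hxD y hyD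
    have hT : IsPGroup p (closure Θ) := P.isPGroup'.to_le hclP
    have hKn : closure ({x, y} : Set G) ≤ normalizer ((closure Θ : Subgroup G) : Set G) := by
      rw [closure_le]
      rintro t ht
      rcases ht with rfl | ht
      · exact hnormx
      · rw [Set.mem_singleton_iff] at ht
        rw [ht]; exact hnormy
    have hsup := hK.to_sup_of_normal_right' hT hKn
    obtain ⟨R, hR⟩ := hsup.exists_le_sylow
    have hxR : x ∈ (R : Subgroup G) :=
      hR (mem_sup_left (Subgroup.subset_closure (Set.mem_insert _ _)))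
    have hyR : y ∈ (R : Subgroup G) :=
      hR (mem_sup_left (Subgroup.subset_closure (Set.mem_insert_of_mem _ rfl)))
    have hΘR : ∀ t ∈ Θ, t ∈ (R : Subgroup G) := fun t ht => hR (mem_sup_right (Subgroup.subset_closure ht))
    have h1 : (P : Set G) ∩ D = (R : Set G) ∩ D := by
      by_contra hne
      have := hmax (P, R) hne
      have hlt : Set.ncard ((P : Set G) ∩ (Q : Set G) ∩ D) <
          Set.ncard ((P : Set G) ∩ (R : Set G) ∩ D) := by
        apply Set.ncard_lt_ncard _ (Set.toFinite _)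
        refine ⟨?_, ?_⟩
        · rintro t ht
          exact ⟨⟨ht.1.1, hΘR t ht⟩, ht.2⟩
        · intro hsub
          have := hsub (⟨⟨hxP, hxR⟩, hxD⟩ : x ∈ (P : Set G) ∩ (R : Set G) ∩ D)
          exact hxQ this.1.2
      exact absurd this (not_le.2 hlt)
    have h3 : (Q : Set G) ∩ D = (R : Set G) ∩ D := by
      by_contra hne
      have := hmax (Q, R) hne
      have hlt : Set.ncard ((P : Set G) ∩ (Q : Set G) ∩ D) <
          Set.ncard ((Q : Set G) ∩ (R : Set G) ∩ D) := by
        apply Set.ncard_lt_ncard _ (Set.toFinite _)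
        refine ⟨?_, ?_⟩
        · rintro t ht
          exact ⟨⟨ht.1.2, hΘR t ht⟩, ht.2⟩
        · intro hsub
          have := hsub (⟨⟨hyQ, hyR⟩, hyD⟩ : y ∈ (Q : Set G) ∩ (R : Set G) ∩ D)
          exact hyP this.1.1
      exact absurd this (not_le.2 hlt)
    exact hPQ (h1.trans h3.symm)
  have P : Sylow p G := default
  have hle : closure D ≤ (P : Subgroup G) := by
    rw [closure_le]
    intro x hx
    have h3 : IsPGroup p (closure ({x, x} : Set G)) := h2 x hx x hx
    obtain ⟨Q, hQ⟩ := h3.exists_le_sylow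
    have hxQ : x ∈ (Q : Set G) ∩ D := ⟨hQ (Subgroup.subset_closure (Set.mem_insert _ _)), hx⟩
    rw [key Q P] at hxQ
    exact hxQ.1
  exact P.isPGroup'.to_le hle

end Pool.Agent.H85.AL
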