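import Mathlib
import Pool.Agent.H85.AL.Bs

/-!
Pure group theory for the case C of the proof that `λ ∈ {1, z}`.
Let `E` be a conjugation invariant set of involutions (or 1) of a finite group `M`, `p` an odd
prime, `D` the set of `x` with `x ^ p = 1`, inverted by an element of `E`, which commute with
`w x w` for every `w ∈ E`. Then `D` generates a (normal) `p`-subgroup.
-/

namespace Pool.Agent.H85.AL

open Subgroup Pointwise

variable {M : Type*} [Group M]

theorem closure_isPGroup_sub [Finite M] {p : ℕ} [Fact p.Prime] (K : Subgroup M) (D : Set M)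
    (hD : ∀ g, ∀ x ∈ D, g * x * g⁻¹ ∈ D)
    (h2 : ∀ x ∈ D, ∀ y ∈ D, x ∈ K → y ∈ K → IsPGroup p (closure ({x, y} : Set M)))
    (S : Set M) (hS : S ⊆ D) (hSK : closure S = K) : IsPGroup p K := by
  classical
  set D' : Set K := {u | (u : M) ∈ D} with hD'
  have h1 : IsPGroup p (closure D') := by
    apply baerSuzuki D'
    · intro g x hx
      exact hD (g : M) (x : M) hx
    · intro x hx y hy
      have h3 := h2 x hx y hy x.2 y.2
      have h4 : (closure ({x, y} : Set K)).map K.subtype = closure ({(x : M), (y : M)} : Set M) := by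
        rw [MonoidHom.map_closure]
        congr 1
        simp [Set.image_pair]
      rw [← h4] at h3
      exact h3.of_equiv ((closure ({x, y} : Set K)).equivMapOfInjective K.subtype
        (Subgroup.subtype_injective K)).symm
  have h5 : (closure D').map K.subtype = K := by
    apply le_antisymm
    · rintro _ ⟨y, _, rfl⟩
      exact y.2
    · conv_lhs => rw [← hSK]
      rw [closure_le]
      intro s hs
      have hsK : s ∈ K := by rw [← hSK]; exact Subgroup.subset_closure hs
      exact ⟨⟨s, hsK⟩, Subgroup.subset_closure (hS hs), rfl⟩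
  have h6 := h1.map K.subtype
  rw [h5] at h6
  exact h6

theorem zpowers_isPGroup {p : ℕ} {x : M} (hx : x ^ p = 1) : IsPGroup p (zpowers x) := by
  rintro ⟨y, n, rfl⟩
  refine ⟨1, ?_⟩
  ext
  push_cast
  show (x ^ n) ^ p ^ 1 = 1
  rw [pow_one, ← zpow_natCast, ← zpow_mul, mul_comm, zpow_mul, zpow_natCast, hx, one_zpow]

/-- The set `D`. -/
def DD (p : ℕ) (E : Set M) : Set M :=
  {x | x ^ p = 1 ∧ (∃ z ∈ E, z * x * z = x⁻¹) ∧ ∀ w ∈ E, Commute x (w * x * w)}

theorem DD_conj {p : ℕ} {E : Set M} (hE : ∀ w ∈ E, w * w = 1)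
    (hEc : ∀ g, ∀ w ∈ E, g * w * g⁻¹ ∈ E) (g : M) (x : M) (hx : x ∈ DD p E) :
    g * x * g⁻¹ ∈ DD p E := by
  obtain ⟨h1, ⟨z, hz, hzx⟩, h3⟩ := hx
  refine ⟨by rw [conj_pow, h1]; group, ⟨g * z * g⁻¹, hEc g z hz, ?_⟩, ?_⟩
  · calc g * z * g⁻¹ * (g * x * g⁻¹) * (g * z * g⁻¹) = g * (z * x * z) * g⁻¹ := by group
      _ = (g * x * g⁻¹)⁻¹ := by rw [hzx]; group
  · intro w hw
    have h4 := h3 (g⁻¹ * w * g) (by have := hEc g⁻¹ w hw; rwa [inv_inv] at this)
    have h5 : g * x * g⁻¹ * (w * (g * x * g⁻¹) * w) =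
        g * (x * (g⁻¹ * w * g * x * (g⁻¹ * w * g))) * g⁻¹ := by group
    have h6 : (w * (g * x * g⁻¹) * w) * (g * x * g⁻¹) =
        g * ((g⁻¹ * w * g * x * (g⁻¹ * w * g)) * x) * g⁻¹ := by group
    show g * x * g⁻¹ * (w * (g * x * g⁻¹) * w) = (w * (g * x * g⁻¹) * w) * (g * x * g⁻¹)
    rw [h5, h6, h4.eq]

theorem pair_isPGroup [Finite M] {p : ℕ} [Fact p.Prime] (hp : p ≠ 2) {E : Set M}
    (hE : ∀ w ∈ E, w * w = 1) (hEc : ∀ g, ∀ w ∈ E, g * w * g⁻¹ ∈ E) :
    ∀ n : ℕ, ∀ x ∈ DD p E, ∀ y ∈ DD p E, Nat.card (closure ({x, y} : Set M)) = n →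
      IsPGroup p (closure ({x, y} : Set M)) := by
  intro n
  induction n using Nat.strong_induction_on with
  | _ n ih =>
  intro x hx y hy hn
  obtain ⟨hxp, ⟨z, hz, hzx⟩, hxE⟩ := id hx
  obtain ⟨hyp, _, hyE⟩ := id hy
  have hzz := hE z hz
  have hzinv : z⁻¹ = z := by rw [inv_eq_iff_mul_eq_one]; exact hzz
  have hpodd : Odd p := (Fact.out : p.Prime).odd_of_ne_two hp
  -- z inverts all powers of x
  have hzk : ∀ k : ℤ, z * x ^ k * z = x ^ (-k) := by
    intro k
    have : z * x ^ k * z⁻¹ = (z * x * z⁻¹) ^ k := by rw [conj_zpow]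
    rw [hzinv, hzx] at this
    rw [this, inv_zpow, zpow_neg]
  -- z x^k is in E
  have hzE : ∀ k : ℤ, z * x ^ k ∈ E := by
    intro k
    obtain ⟨m, hm⟩ := hpodd
    -- x^k = x^(2 l), l = k * (m+1)
    have h1 : x ^ k = x ^ (2 * (k * (m + 1)) : ℤ) := by
      have h2 : (2 * (k * (m + 1)) : ℤ) = k + k * p := by rw [hm]; push_cast; ring
      rw [h2, zpow_add, mul_comm k (p : ℤ), zpow_mul x (p : ℤ) k, zpow_natCast, hxp, one_zpow, mul_one]
    have h3 := hEc (x ^ (-(k * (m + 1)) : ℤ)) z hz
    have h4 : x ^ (-(k * (m + 1)) : ℤ) * z * (x ^ (-(k * (m + 1)) : ℤ))⁻¹ = z * x ^ k := by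
      have h5 : x ^ (-(k * (m + 1)) : ℤ) = z * x ^ (k * (m + 1) : ℤ) * z := (hzk _).symm
      rw [← zpow_neg, neg_neg, h1]
      calc x ^ (-(k * (m + 1)) : ℤ) * z * x ^ (k * (m + 1) : ℤ)
          = (z * x ^ (k * (m + 1) : ℤ) * z) * z * x ^ (k * (m + 1) : ℤ) := by rw [← h5]
        _ = z * x ^ (k * (m + 1) : ℤ) * (z * z) * x ^ (k * (m + 1) : ℤ) := by group
        _ = z * (x ^ (k * (m + 1) : ℤ) * x ^ (k * (m + 1) : ℤ)) := by rw [hzz]; group
        _ = z * x ^ (2 * (k * (m + 1)) : ℤ) := by rw [← zpow_add]; congr 2; ring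
    rw [← h4]
    exact h3
  -- Claim A
  have hA : ∀ k : ℤ, Commute (z * y * z) (x ^ k * y * x ^ (-k)) := by
    intro k
    have h1 := hyE (z * x ^ k) (hzE k)
    have h0 := hE (z * x ^ k) (hzE k)
    have h2 : z * x ^ k * y * (z * x ^ k) = z * (x ^ k * y * x ^ (-k)) * z := by
      have h3 : z * x ^ k = x ^ (-k) * z := by
        calc z * x ^ k = z * x ^ k * (z * z) := by rw [hzz, mul_one]
          _ = (z * x ^ k * z) * z := by group
          _ = x ^ (-k) * z := by rw [hzk]
      calc z * x ^ k * y * (z * x ^ k) = z * x ^ k * y * (x ^ (-k) * z) := by rw [h3]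
        _ = _ := by group
    rw [h2] at h1
    have h4 : z * y * z * (x ^ k * y * x ^ (-k)) =
        z * (y * (z * (x ^ k * y * x ^ (-k)) * z)) * z := by
      calc z * y * z * (x ^ k * y * x ^ (-k)) = z * y * z * (x ^ k * y * x ^ (-k)) * (z * z) := by
            rw [hzz, mul_one]
        _ = _ := by group
    have h5 : (x ^ k * y * x ^ (-k)) * (z * y * z) =
        z * ((z * (x ^ k * y * x ^ (-k)) * z) * y) * z := by
      calc (x ^ k * y * x ^ (-k)) * (z * y * z)
          = (z * z) * (x ^ k * y * x ^ (-k)) * (z * y * z) := by rw [hzz, one_mul]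
        _ = _ := by group
    show z * y * z * (x ^ k * y * x ^ (-k)) = (x ^ k * y * x ^ (-k)) * (z * y * z)
    rw [h4, h5, h1.eq]
  set S : Set M := Set.range (fun k : ℤ => x ^ k * y * x ^ (-k)) with hS
  set E1 : Subgroup M := closure S with hE1
  have hyE1 : y ∈ E1 := Subgroup.subset_closure ⟨0, by simp⟩
  -- Claim B
  have hB1 : ∀ j k : ℤ, Commute (z * (x ^ j * y * x ^ (-j)) * z) (x ^ k * y * x ^ (-k)) := by
    intro j k
    have h1 := hA (j + k)
    have h2 : z * (x ^ j * y * x ^ (-j)) * z = x ^ (-j) * (z * y * z) * x ^ j := by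
      have h3 : z * x ^ j = x ^ (-j) * z := by
        calc z * x ^ j = z * x ^ j * (z * z) := by rw [hzz, mul_one]
          _ = (z * x ^ j * z) * z := by group
          _ = x ^ (-j) * z := by rw [hzk]
      have h3' : x ^ (-j) * z = z * x ^ j := h3.symm
      calc z * (x ^ j * y * x ^ (-j)) * z = (z * x ^ j) * y * (x ^ (-j) * z) := by group
        _ = (x ^ (-j) * z) * y * (z * x ^ j) := by rw [h3]
        _ = _ := by group
    rw [h2]
    have h4 : x ^ (-j) * (z * y * z) * x ^ j * (x ^ k * y * x ^ (-k)) =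
        x ^ (-j) * ((z * y * z) * (x ^ (j + k) * y * x ^ (-(j + k)))) * x ^ j := by
      rw [zpow_add, neg_add, zpow_add]
      have : x ^ (-j) * x ^ (-k) = x ^ (-k) * x ^ (-j) := by rw [← zpow_add, ← zpow_add, add_comm]
      rw [this]
      group
    have h5 : (x ^ k * y * x ^ (-k)) * (x ^ (-j) * (z * y * z) * x ^ j) =
        x ^ (-j) * ((x ^ (j + k) * y * x ^ (-(j + k))) * (z * y * z)) * x ^ j := by
      rw [zpow_add, neg_add, zpow_add]
      have : x ^ (-j) * x ^ (-k) = x ^ (-k) * x ^ (-j) := by rw [← zpow_add, ← zpow_add, add_comm]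
      rw [this]
      group
    show x ^ (-j) * (z * y * z) * x ^ j * (x ^ k * y * x ^ (-k)) =
      (x ^ k * y * x ^ (-k)) * (x ^ (-j) * (z * y * z) * x ^ j)
    rw [h4, h5, h1.eq]
  have hB2 : ∀ j : ℤ, ∀ v ∈ E1, Commute (z * (x ^ j * y * x ^ (-j)) * z) v := by
    intro j v hv
    have : E1 ≤ centralizer {z * (x ^ j * y * x ^ (-j)) * z} := by
      rw [hE1, closure_le]
      rintro _ ⟨k, rfl⟩
      simp only [SetLike.mem_coe]
      rw [mem_centralizer_singleton_iff]
      exact (hB1 j k).eq.symm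
    have h1 := this hv
    rw [mem_centralizer_singleton_iff] at h1
    exact h1.symm
  have hB : ∀ u ∈ E1, ∀ v ∈ E1, Commute (z * u * z) v := by
    intro u hu v hv
    have : E1 ≤ (centralizer {v}).comap (MulAut.conj z).toMonoidHom := by
      rw [hE1, closure_le]
      rintro _ ⟨j, rfl⟩
      have h1 := hB2 j v hv
      show (MulAut.conj z) (x ^ j * y * x ^ (-j)) ∈ centralizer {v}
      rw [MulAut.conj_apply, hzinv, mem_centralizer_singleton_iff]
      exact h1.eq
    have h1 := this hu
    have h2 : (MulAut.conj z) u ∈ centralizer {v} := h1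
    rw [MulAut.conj_apply, hzinv, mem_centralizer_singleton_iff] at h2
    exact h2
  -- E1 is inside closure {x,y}
  have hE1le : E1 ≤ closure ({x, y} : Set M) := by
    rw [hE1, closure_le]
    rintro _ ⟨k, rfl⟩
    have h1 : x ∈ closure ({x, y} : Set M) := Subgroup.subset_closure (Set.mem_insert _ _)
    have h2 : y ∈ closure ({x, y} : Set M) :=
      Subgroup.subset_closure (Set.mem_insert_of_mem _ rfl)
    exact mul_mem (mul_mem (zpow_mem h1 _) h2) (zpow_mem h1 _)
  -- the sup
  have hsup_le : ∀ K : Subgroup M, y ∈ K → closure ({x, y} : Set M) ≤ zpowers x ⊔ K := by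
    intro K hyK
    rw [closure_le]
    intro t ht
    rcases ht with rfl | ht
    · exact mem_sup_left (mem_zpowers _)
    · rw [Set.mem_singleton_iff] at ht
      rw [ht]; exact mem_sup_right hyK
  by_cases hxE1 : x ∈ E1
  · -- x commutes with y
    have h1 := hB x hxE1 y hyE1
    rw [hzx] at h1
    have hc : Commute x y := by simpa using h1.inv_left
    have hn1 : zpowers x ≤ normalizer ((zpowers y : Subgroup M) : Set M) := by
      rw [zpowers_le, mem_normalizer_iff]
      intro t
      constructor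
      · rintro ⟨k, rfl⟩
        refine ⟨k, ?_⟩
        show y ^ k = x * y ^ k * x⁻¹
        rw [(hc.zpow_right k).eq]; group
      · rintro ⟨k, hk⟩
        refine ⟨k, ?_⟩
        have hk' : y ^ k = x * t * x⁻¹ := hk
        show y ^ k = t
        calc y ^ k = x⁻¹ * (x * y ^ k) := by group
          _ = x⁻¹ * (y ^ k * x) := by rw [(hc.zpow_right k).eq]
          _ = x⁻¹ * (x * t * x⁻¹ * x) := by rw [hk']
          _ = t := by group
    have h2 := (zpowers_isPGroup hxp).to_sup_of_normal_right' (zpowers_isPGroup hyp) hn1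
    exact h2.to_le (hsup_le _ (mem_zpowers y))
  · -- E1 is smaller
    have hlt : E1 < closure ({x, y} : Set M) := by
      refine lt_of_le_of_ne hE1le ?_
      intro he
      apply hxE1
      rw [he]
      exact Subgroup.subset_closure (Set.mem_insert _ _)
    have hcard : Nat.card E1 < n := by
      rw [← hn]
      exact Set.ncard_lt_ncard (SetLike.coe_ssubset_coe.2 hlt) (Set.toFinite _)
    have hSD : S ⊆ DD p E := by
      rintro _ ⟨k, rfl⟩
      have := DD_conj hE hEc (x ^ k) y hy
      rw [← zpow_neg] at this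
      exact this
    have hE1p : IsPGroup p E1 := by
      apply closure_isPGroup_sub E1 (DD p E) (fun g u hu => DD_conj hE hEc g u hu) _ S hSD rfl
      intro u hu v hv huE hvE
      have hle : closure ({u, v} : Set M) ≤ E1 := by
        rw [closure_le]
        intro t ht
        rcases ht with rfl | ht
        · exact huE
        · rw [Set.mem_singleton_iff] at ht
          rw [ht]; exact hvE
      have hc2 : Nat.card (closure ({u, v} : Set M)) ≤ Nat.card E1 :=
        Set.ncard_le_ncard (SetLike.coe_subset_coe.2 hle) (Set.toFinite _)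
      exact ih _ (lt_of_le_of_lt hc2 hcard) u hu v hv rfl
    have hn1 : zpowers x ≤ normalizer ((E1 : Subgroup M) : Set M) := by
      rw [zpowers_le, mem_normalizer_iff]
      intro t
      constructor
      · intro ht
        have : E1 ≤ E1.comap (MulAut.conj x).toMonoidHom := by
          conv_lhs => rw [hE1]
          rw [closure_le]
          rintro _ ⟨k, rfl⟩
          apply Subgroup.subset_closure
          refine ⟨k + 1, ?_⟩
          show x ^ (k + 1) * y * x ^ (-(k + 1)) = (MulAut.conj x) (x ^ k * y * x ^ (-k))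
          rw [MulAut.conj_apply, add_comm k 1, zpow_add, neg_add_rev, zpow_add, zpow_one, zpow_neg_one]
          group
        exact this ht
      · intro ht
        have : E1 ≤ E1.comap (MulAut.conj x⁻¹).toMonoidHom := by
          conv_lhs => rw [hE1]
          rw [closure_le]
          rintro _ ⟨k, rfl⟩
          apply Subgroup.subset_closure
          refine ⟨k - 1, ?_⟩
          show x ^ (k - 1) * y * x ^ (-(k - 1)) = (MulAut.conj x⁻¹) (x ^ k * y * x ^ (-k))
          rw [MulAut.conj_apply]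
          have e1 : x ^ (k - 1) = x⁻¹ * x ^ k := by rw [sub_eq_neg_add, zpow_add, zpow_neg_one]
          have e2 : x ^ (-(k - 1)) = x ^ (-k) * x := by
            rw [neg_sub, sub_eq_neg_add, zpow_add, zpow_one]
          rw [e1, e2]
          group
        have h3 := this ht
        have h4 : (MulAut.conj x⁻¹).toMonoidHom (x * t * x⁻¹) = t := by
          simp
          group
        rw [mem_comap, h4] at h3
        exact h3
    have h2 := (zpowers_isPGroup hxp).to_sup_of_normal_right' hE1p hn1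
    exact h2.to_le (hsup_le _ hyE1)

/-- Main statement of this file. -/
theorem closure_isPGroup [Finite M] {p : ℕ} [Fact p.Prime] (hp : p ≠ 2) (E : Set M)
    (hE : ∀ w ∈ E, w * w = 1) (hEc : ∀ g, ∀ w ∈ E, g * w * g⁻¹ ∈ E) :
    IsPGroup p (closure {x : M | x ^ p = 1 ∧ (∃ z ∈ E, z * x * z = x⁻¹) ∧
      ∀ w ∈ E, Commute x (w * x * w)}) :=
  baerSuzuki (DD p E) (fun g x hx => DD_conj hE hEc g x hx)
    (fun x hx y hy => pair_isPGroup hp hE hEc _ x hx y hy rfl)

/-- The closure is normal. -/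
theorem closure_normal {p : ℕ} (E : Set M)
    (hE : ∀ w ∈ E, w * w = 1) (hEc : ∀ g, ∀ w ∈ E, g * w * g⁻¹ ∈ E) :
    (closure {x : M | x ^ p = 1 ∧ (∃ z ∈ E, z * x * z = x⁻¹) ∧
      ∀ w ∈ E, Commute x (w * x * w)}).Normal := by
  constructor
  intro n hn g
  have : closure (DD p E) ≤ (closure (DD p E)).comap (MulAut.conj g).toMonoidHom := by
    rw [closure_le]
    intro x hx
    exact Subgroup.subset_closure (DD_conj hE hEc g x hx)
  exact this hn

end Pool.Agent.H85.AL
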